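import Mathlib
import Pool.Agent.OBT.Defs
import Pool.Agent.OBT.FinIff

/-!
# The obtuse lattice triangles

An obtuse triangle whose angles are rational multiples of `π` has the lattice property if and only if
its angles are `(π/n, π/n, (n-2)π/n)` with `n ≥ 5` (the triangles of Veech),
`(π/(2n), π/n, (2n-3)π/(2n))` with `n ≥ 4` (the triangles of Ward), or `(π/12, π/3, 7π/12)`
(the triangle of Hooper).
-/

open scoped Real EuclideanGeometry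

open Pool.Agent.OBT

theorem Pool.Agent.Results.MP_31d7f2_an.Classification.result (v : Fin 3 → ℂ)
    (hv : AffineIndependent ℝ v)
    (h0 : ∃ r : ℚ, ∠ (v 1) (v 0) (v 2) = r * π) (h1 : ∃ r : ℚ, ∠ (v 2) (v 1) (v 0) = r * π)
    (h01 : ∠ (v 1) (v 0) (v 2) ≤ ∠ (v 2) (v 1) (v 0)) (h2 : π / 2 < ∠ (v 0) (v 2) (v 1)) :
    LatticeTriangle v ↔
    (∃ n : ℕ, 5 ≤ n ∧ ∠ (v 1) (v 0) (v 2) = π / n ∧ ∠ (v 2) (v 1) (v 0) = π / n ∧
      ∠ (v 0) (v 2) (v 1) = (n - 2) * π / n) ∨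
    (∃ n : ℕ, 4 ≤ n ∧ ∠ (v 1) (v 0) (v 2) = π / (2 * n) ∧ ∠ (v 2) (v 1) (v 0) = π / n ∧
      ∠ (v 0) (v 2) (v 1) = (2 * n - 3) * π / (2 * n)) ∨
    (∠ (v 1) (v 0) (v 2) = π / 12 ∧ ∠ (v 2) (v 1) (v 0) = π / 3 ∧
      ∠ (v 0) (v 2) (v 1) = 7 * π / 12) :=
  classification_iff v hv h0 h1 h01 h2
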